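import Pool.Agent.Helper96.RK.Ty2

/-!
# Project RK, block Ty4: chains have length at most the rank

`LinRk S r`: up to bounded error and up to the order of the coordinates the vectors `log s_i(γ)` are in a subspace `V` of `ℝ^N` of dimension at most `r`.
`length_le`: then a strictly decreasing chain `c` for which all the sets `TC S c m` are nonempty has length at most `r`. The gaps are linear functionals on `V` (for one fixed
permutation, which occurs for arbitrarily large `m`); the spans of the functionals of the sets of the chain are strictly increasing.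
-/

set_option autoImplicit false

open Filter Topology

namespace Pool.Agent.Helper96.RK

open Pool.Agent.Helper84.NI Pool.Agent.Helper90.RK

variable {G : Type} [Group G] {N : ℕ} {P : PH G N}

/-- The coarse linear rank is at most `r`. -/
def LinRk (S : Sv P) (r : ℕ) : Prop :=
  ∃ (V : Submodule ℝ (Fin N → ℝ)) (B : ℝ), Module.finrank ℝ V ≤ r ∧
    ∀ γ, ∃ a ∈ V, ∃ p : Equiv.Perm (Fin N), ∀ i, |Real.log (S.s γ i) - a (p i)| ≤ B

/-- The coordinates on `V`. -/
noncomputable def cr (V : Submodule ℝ (Fin N → ℝ)) (i : Fin N) : V →ₗ[ℝ] ℝ :=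
  (LinearMap.proj i : (Fin N → ℝ) →ₗ[ℝ] ℝ).comp V.subtype

theorem cr_apply (V : Submodule ℝ (Fin N → ℝ)) (i : Fin N) (a : V) : cr V i a = (a : Fin N → ℝ) i := rfl

/-- The functional of a gap. -/
noncomputable def fl (V : Submodule ℝ (Fin N → ℝ)) (p : Equiv.Perm (Fin N)) (i : Fin N) : V →ₗ[ℝ] ℝ :=
  if h : (i : ℕ) + 1 < N then cr V (p i) - cr V (p ⟨i + 1, h⟩) else 0

theorem lg_fl {S : Sv P} {V : Submodule ℝ (Fin N → ℝ)} {B : ℝ} {γ : G} (a : V)
    {p : Equiv.Perm (Fin N)} (h : ∀ i, |Real.log (S.s γ i) - (a : Fin N → ℝ) (p i)| ≤ B) (i : Fin N) :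
    |lg S γ i - fl V p i a| ≤ 2 * B := by
  have hB : 0 ≤ B := (abs_nonneg _).trans (h i)
  unfold lg gp fl
  split_ifs with hi
  · rw [Real.log_div (S.pos _ _).ne' (S.pos _ _).ne']
    have h1 := h i
    have h2 := h ⟨i + 1, hi⟩
    have e : Real.log (S.s γ i) - Real.log (S.s γ ⟨i + 1, hi⟩) -
        (cr V (p i) - cr V (p ⟨i + 1, hi⟩)) a =
        (Real.log (S.s γ i) - (a : Fin N → ℝ) (p i)) -
          (Real.log (S.s γ ⟨i + 1, hi⟩) - (a : Fin N → ℝ) (p ⟨i + 1, hi⟩)) := by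
      rw [LinearMap.sub_apply, cr_apply, cr_apply]
      ring
    rw [e]
    exact (abs_sub _ _).trans (by linarith)
  · rw [Real.log_one]
    simp only [LinearMap.zero_apply, sub_zero, abs_zero]
    linarith

/-- The spans of the gap functionals increase strictly. -/
theorem span_lt {S : Sv P} {V : Submodule ℝ (Fin N → ℝ)} {B : ℝ} {p : Equiv.Perm (Fin N)}
    {J I : Finset (Fin N)} {c : List (Finset (Fin N))} (hJ : J ⊂ I)
    (h : ∀ m : ℕ, ∃ γ ∈ TC S (J :: c) m, ∃ a : V, ∀ i, |Real.log (S.s γ i) - (a : Fin N → ℝ) (p i)| ≤ B) :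
    Submodule.span ℝ (fl V p '' J) < Submodule.span ℝ (fl V p '' I) := by
  obtain ⟨j, hjI, hjJ⟩ := Finset.exists_of_ssubset hJ
  have hle : Submodule.span ℝ (fl V p '' J) ≤ Submodule.span ℝ (fl V p '' I) :=
    Submodule.span_mono (Set.image_mono (by exact_mod_cast hJ.1))
  refine lt_of_le_of_ne hle fun heq => ?_
  have hmem : fl V p j ∈ Submodule.span ℝ (fl V p '' J) := by
    rw [heq]
    exact Submodule.subset_span ⟨j, by exact_mod_cast hjI, rfl⟩
  obtain ⟨x0, hx0⟩ := (Submodule.mem_span_image_finset_iff_exists_fun ℝ).1 hmem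
  obtain ⟨x, hx⟩ : ∃ x : Fin N → ℝ, ∑ i ∈ J, x i • fl V p i = fl V p j := by
    classical
    refine ⟨fun i => if h : i ∈ J then x0 ⟨i, h⟩ else 0, ?_⟩
    rw [← hx0, ← Finset.sum_coe_sort J]
    refine Finset.sum_congr rfl fun i _ => ?_
    simp only [dif_pos i.2]
  set X : ℝ := ∑ i ∈ J, |x i| with hX
  have hX0 : 0 ≤ X := Finset.sum_nonneg fun i _ => abs_nonneg _
  have hB : 0 ≤ B := by
    obtain ⟨γ, -, a, ha⟩ := h 0
    exact (abs_nonneg _).trans (ha j)
  obtain ⟨γ, hγ, a, ha⟩ := h (⌈X⌉₊ + ⌈2 * B * (X + 1)⌉₊ + 1)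
  have h1 := ((TC_cons S).1 hγ).1 j hjJ
  push_cast at h1
  have hc1 := Nat.le_ceil X
  have hc2 := Nat.le_ceil (2 * B * (X + 1))
  set Y : ℝ := ∑ i ∈ J, lg S γ i with hY
  have hY0 : 0 ≤ Y := sum_lg_nonneg S γ J
  have h2 : fl V p j a = ∑ i ∈ J, x i * fl V p i a := by
    rw [← hx, LinearMap.sum_apply]
    rfl
  have h3 : lg S γ j ≤ fl V p j a + 2 * B := by
    have := (abs_le.1 (lg_fl a ha j)).2
    linarith
  have h4 : ∀ i ∈ J, x i * fl V p i a ≤ |x i| * (lg S γ i + 2 * B) := by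
    intro i _
    have h5 : |fl V p i a| ≤ lg S γ i + 2 * B := by
      have h6 := abs_le.1 (lg_fl a ha i)
      rw [abs_le]
      have := lg_nonneg S γ i
      constructor <;> linarith
    calc x i * fl V p i a ≤ |x i * fl V p i a| := le_abs_self _
      _ = |x i| * |fl V p i a| := abs_mul _ _
      _ ≤ |x i| * (lg S γ i + 2 * B) := mul_le_mul_of_nonneg_left h5 (abs_nonneg _)
  have h5 : ∑ i ∈ J, |x i| * (lg S γ i + 2 * B) ≤ X * Y + 2 * B * X := by
    have e : ∑ i ∈ J, |x i| * (lg S γ i + 2 * B) = ∑ i ∈ J, |x i| * lg S γ i + 2 * B * X := by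
      rw [hX, Finset.mul_sum, ← Finset.sum_add_distrib]
      exact Finset.sum_congr rfl fun i _ => by ring
    rw [e]
    have : ∑ i ∈ J, |x i| * lg S γ i ≤ X * Y := by
      rw [hX, Finset.sum_mul]
      refine Finset.sum_le_sum fun i hi => mul_le_mul_of_nonneg_left ?_ (abs_nonneg _)
      exact Finset.single_le_sum (f := fun i => lg S γ i) (fun k _ => lg_nonneg S γ k) hi
    linarith
  have h6 : lg S γ j ≤ X * Y + 2 * B * X + 2 * B := by
    have := Finset.sum_le_sum h4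
    linarith
  nlinarith [mul_nonneg hX0 hY0]

theorem span_add_length {S : Sv P} {V : Submodule ℝ (Fin N → ℝ)} {B : ℝ} {p : Equiv.Perm (Fin N)}
    (c : List (Finset (Fin N))) (hc : IsCh c)
    (h : ∀ m : ℕ, ∃ γ ∈ TC S c m, ∃ a : V, ∀ i, |Real.log (S.s γ i) - (a : Fin N → ℝ) (p i)| ≤ B) :
    Module.finrank ℝ (Submodule.span ℝ (fl V p '' (hd c : Set (Fin N)))) + c.length ≤
      Module.finrank ℝ (Submodule.span ℝ (fl V p '' (Set.univ : Set (Fin N)))) := by
  induction c with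
  | nil =>
    have e : ((hd ([] : List (Finset (Fin N))) : Finset (Fin N)) : Set (Fin N)) = Set.univ := by
      simp [hd]
    rw [e, List.length_nil, add_zero]
  | cons J c ih =>
    obtain ⟨h1, h2⟩ := hc
    have h3 := ih h2 (fun m => by
      obtain ⟨γ, hγ, a, ha⟩ := h m
      exact ⟨γ, ((TC_cons S).1 hγ).2, a, ha⟩)
    have h4 := Submodule.finrank_lt_finrank_of_lt (span_lt h1 h)
    have e : ((hd (J :: c) : Finset (Fin N)) : Set (Fin N)) = (J : Set (Fin N)) := rfl
    rw [e, List.length_cons]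
    omega

theorem length_le {S : Sv P} {r : ℕ} (h : LinRk S r) {c : List (Finset (Fin N))} (hc : IsCh c)
    (hne : ∀ m : ℕ, (TC S c m).Nonempty) : c.length ≤ r := by
  obtain ⟨V, B, hV, hγ⟩ := h
  -- one permutation for all `m`
  obtain ⟨p, hp⟩ : ∃ p : Equiv.Perm (Fin N), ∀ m : ℕ, ∃ γ ∈ TC S c m, ∃ a : V,
      ∀ i, |Real.log (S.s γ i) - (a : Fin N → ℝ) (p i)| ≤ B := by
    by_contra hcon
    push Not at hcon
    choose m hm using hcon
    obtain ⟨γ, hγm⟩ := hne (Finset.univ.sup m)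
    obtain ⟨a, ha, p, hp⟩ := hγ γ
    obtain ⟨i, hi⟩ := hm p γ (TC_anti S c (Finset.le_sup (Finset.mem_univ p)) hγm) ⟨a, ha⟩
    exact absurd (hp i) (not_le.2 hi)
  have h1 := span_add_length c hc hp
  have h2 : Module.finrank ℝ (Submodule.span ℝ (fl V p '' (Set.univ : Set (Fin N)))) ≤
      Module.finrank ℝ (V →ₗ[ℝ] ℝ) := Submodule.finrank_le _
  have h3 : Module.finrank ℝ (V →ₗ[ℝ] ℝ) = Module.finrank ℝ V := Subspace.dual_finrank_eq
  omega

end Pool.Agent.Helper96.RK
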