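import Pool.Agent.Helper96.RK.Ty3
import Pool.Agent.Helper96.RK.Ty4

/-!
# Project RK, block Ty5: the number of commuting nonamenable families

`rank_bound`: if over every stratum there is a cocycle with multipliers (hypothesis `Inst`), the coarse linear rank is at most `r`, and `E 0, ..., E (r-1)` are pairwise commuting embeddings of nonamenable
groups, then there is no sequence of unitaries commuting with all of them and tending weakly to zero.
-/

set_option autoImplicit false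

open Filter Topology

namespace Pool.Agent.Helper96.RK

open Pool.Agent.Helper84.NI Pool.Agent.Helper84.GN Pool.Agent.Helper84.GVN Pool.Agent.Helper90.RK

variable {G : Type} [Group G] {N : ℕ} {P : PH G N}

/-- Cocycles with multipliers over the strata. -/
def HasCoc (R : Reg G) : Prop :=
  ∃ (L : Type) (_ : NormedAddCommGroup L) (_ : InnerProductSpace ℂ L) (_ : CompleteSpace L) (Γ : Coc R L),
    ∀ (Q : Finset G) (ε : ℝ), 0 < ε → Nonempty (Mul Γ Q ε)

/-- Weak convergence to zero: the mass leaves every finite set. -/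
theorem start (S : Sv P) {V : Set (L2 G ≃ₗᵢ[ℂ] L2 G)} {w : ℕ → (L2 G ≃ₗᵢ[ℂ] L2 G)} (hw : ∀ n, w n ∈ V)
    (h0 : ∀ g, Tendsto (fun n => cf (w n) g) atTop (𝓝 0)) (m : ℕ) :
    ∃ v ∈ V, 1 / 2 ≤ ‖ind ℂ (TC S ([] : List (Finset (Fin N))) m \ WC S (hd []) m) (cf v)‖ := by
  classical
  have hfin : (WC S (hd ([] : List (Finset (Fin N)))) m).Finite := by
    refine (finite_lg_le S m).subset fun γ hγ i => hγ i ?_
    exact Finset.mem_univ i
  set F := WC S (hd ([] : List (Finset (Fin N)))) m with hF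
  have hTC : TC S ([] : List (Finset (Fin N))) m = Set.univ := by
    ext γ
    simp [TC]
  have h1 : Tendsto (fun n => ∑ γ ∈ hfin.toFinset, ‖cf (w n) γ‖ ^ 2) atTop (𝓝 0) := by
    have := tendsto_finsetSum hfin.toFinset fun γ _ => ((h0 γ).norm).pow 2
    simpa using this
  obtain ⟨n, hn⟩ := (h1.eventually (gt_mem_nhds (show (0 : ℝ) < 3 / 4 by norm_num))).exists
  refine ⟨w n, hw n, ?_⟩
  rw [hTC]
  -- the sum of the squares
  have h2 : HasSum (fun γ => ‖ind ℂ (Set.univ \ F) (cf (w n)) γ‖ ^ 2)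
      (‖ind ℂ (Set.univ \ F) (cf (w n))‖ ^ 2) := lv_hasSum _
  have h3 : HasSum (fun γ => if γ ∈ F then ‖cf (w n) γ‖ ^ 2 else 0)
      (∑ γ ∈ hfin.toFinset, ‖cf (w n) γ‖ ^ 2) := by
    have h4 : ∑ γ ∈ hfin.toFinset, ‖cf (w n) γ‖ ^ 2 =
        ∑ γ ∈ hfin.toFinset, (if γ ∈ F then ‖cf (w n) γ‖ ^ 2 else 0) :=
      Finset.sum_congr rfl fun γ hγ => by rw [if_pos (hfin.mem_toFinset.1 hγ)]
    rw [h4]
    exact hasSum_sum_of_ne_finset_zero fun γ hγ => by
      rw [if_neg fun h => hγ (hfin.mem_toFinset.2 h)]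
  have h5 : HasSum (fun γ => ‖cf (w n) γ‖ ^ 2) (‖cf (w n)‖ ^ 2) := lv_hasSum (cf (w n))
  have h6 : (fun γ => ‖ind ℂ (Set.univ \ F) (cf (w n)) γ‖ ^ 2 +
      if γ ∈ F then ‖cf (w n) γ‖ ^ 2 else 0) = fun γ => ‖cf (w n) γ‖ ^ 2 := by
    funext γ
    rw [ind_apply]
    by_cases hγ : γ ∈ F <;> simp [hγ]
  have h7 := (h2.add h3)
  rw [h6] at h7
  have h8 := h7.unique h5
  rw [norm_cf] at h8
  nlinarith [norm_nonneg (ind ℂ (Set.univ \ F) (cf (w n)))]

/-- One nonamenable group moves the mass to the next level. -/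
theorem escape_step {S : Sv P} (hI : ∀ T : Str S, HasCoc (toReg T)) {Λ : Type} [Group Λ] {E : Emb Λ G}
    (hΛ : NonAm Λ) {J : Finset (Fin N)} {c : List (Finset (Fin N))} {w : ℕ → (L2 G ≃ₗᵢ[ℂ] L2 G)}
    (hw : ∀ n, CommR (w n)) (hc : ∀ n l f, w n (E.U l f) = E.U l (w n f))
    (hne : Ppr (toReg (chStr S J c)) (zet w) ≠ 0) :
    ∃ β : ℝ, 0 < β ∧ ∀ m : ℕ, ∃ (n : ℕ) (l : Λ),
      β ≤ ‖ind ℂ (TC S (J :: c) m \ WC S (hd (J :: c)) m) (cf (w n * E.U l))‖ := by
  obtain ⟨L, i1, i2, i3, Γ, hD⟩ := hI (chStr S J c)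
  obtain ⟨β, hβ, h⟩ := escape_seq Γ hD hΛ hw hc hne
  exact ⟨β, hβ, fun m => h (TC S (J :: c) m) (fun n => TC_mem_FC S J c m n) m⟩

/-- A component over the stratum of a chain: the sets of the chain are nonempty. -/
theorem TC_nonempty {S : Sv P} {J : Finset (Fin N)} {c : List (Finset (Fin N))} {z : UP (L2 G)}
    (hne : Ppr (toReg (chStr S J c)) z ≠ 0) (m : ℕ) : (TC S (J :: c) m).Nonempty := by
  by_contra hcon
  rw [Set.not_nonempty_iff_eq_empty] at hcon
  apply hne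
  have h1 := Ua_ind (toReg (chStr S J c)) (s := TC S (J :: c) m) (fun n => TC_mem_FC S J c m n)
    (a := (Ppr (toReg (chStr S J c)) z : (toReg (chStr S J c)).Ua)) (Submodule.coe_mem _)
  rw [hcon] at h1
  have h2 : ind ℂ (∅ : Set G) = (0 : L2 G →L[ℂ] L2 G) := by
    ext1 f
    exact ind_empty2 f
  rw [h2, UP.map_zero] at h1
  exact Subtype.ext h1.symm

theorem rank_bound {S : Sv P} (hI : ∀ T : Str S, HasCoc (toReg T)) {r : ℕ} (hr : LinRk S r)
    (Λ : Fin r → Type) [∀ i, Group (Λ i)] (E : ∀ i, Emb (Λ i) G) (hΛ : ∀ i, NonAm (Λ i))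
    (hE : ∀ i j, i ≠ j → ∀ l l' f, (E i).U l ((E j).U l' f) = (E j).U l' ((E i).U l f))
    (w : ℕ → (L2 G ≃ₗᵢ[ℂ] L2 G)) (hw : ∀ n, CommR (w n))
    (hc : ∀ i n l f, w n ((E i).U l f) = (E i).U l (w n f))
    (h0 : ∀ g, Tendsto (fun n => cf (w n) g) atTop (𝓝 0)) : False := by
  let V : ℕ → Set (L2 G ≃ₗᵢ[ℂ] L2 G) := fun k =>
    {v | CommR v ∧ ∀ i : Fin r, k ≤ (i : ℕ) → ∀ l f, v ((E i).U l f) = (E i).U l (v f)}
  have key : ∀ k : ℕ, k ≤ r → ∃ c : List (Finset (Fin N)), c.length = k ∧ IsCh c ∧ ∃ β : ℝ, 0 < β ∧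
      ∀ m : ℕ, ∃ v ∈ V k, β ≤ ‖ind ℂ (TC S c m \ WC S (hd c) m) (cf v)‖ := by
    intro k
    induction k with
    | zero =>
      intro _
      refine ⟨[], rfl, trivial, 1 / 2, by norm_num, fun m => ?_⟩
      exact start S (V := V 0) (w := w) (fun n => ⟨hw n, fun i _ l f => hc i n l f⟩) h0 m
    | succ k ih =>
      intro hk
      obtain ⟨c, hcl, hch, β, hβ, h⟩ := ih (by omega)
      obtain ⟨J, w', hJ, hw', hne⟩ := select S c hβ h
      let i : Fin r := ⟨k, by omega⟩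
      obtain ⟨β', hβ', h'⟩ := escape_step hI (E := E i) (hΛ i) (fun n => (hw' n).1)
        (fun n l f => (hw' n).2 i (le_refl k) l f) hne
      refine ⟨J :: c, by rw [List.length_cons, hcl], ⟨hJ, hch⟩, β', hβ', fun m => ?_⟩
      obtain ⟨n, l, hnl⟩ := h' m
      refine ⟨w' n * (E i).U l, ⟨?_, ?_⟩, hnl⟩
      · intro g f
        change w' n ((E i).U l (rhoU g f)) = rhoU g (w' n ((E i).U l f))
        rw [(E i).comm l, (hw' n).1]
      · intro j hj l' f
        have hij : i ≠ j := by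
          intro h
          rw [← h] at hj
          exact absurd hj (by
            change ¬ (k + 1 ≤ k)
            omega)
        change w' n ((E i).U l ((E j).U l' f)) = (E j).U l' (w' n ((E i).U l f))
        rw [hE i j hij, (hw' n).2 j (by omega)]
  obtain ⟨c, hcl, hch, β, hβ, h⟩ := key r le_rfl
  obtain ⟨J, w', hJ, _, hne⟩ := select S c hβ h
  have h1 := length_le hr (c := J :: c) ⟨hJ, hch⟩ (TC_nonempty hne)
  rw [List.length_cons, hcl] at h1
  omega

end Pool.Agent.Helper96.RK
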