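import Pool.Agent.Helper96.RK.Ty4

/-!
# Project RK, block Ty6: Cartan decompositions

`KAK P r`: all the matrices `ι g` are of the form `k diag(e^a) k'`, `k`, `k'` unitary, `a` in a subspace of `ℝ^N` of dimension at most `r`. Then the coarse linear rank is at most `r`.
-/

set_option autoImplicit false

open Filter Topology Matrix

namespace Pool.Agent.Helper96.RK

open Pool.Agent.Helper84.NI Pool.Agent.Helper90.RK

variable {G : Type} [Group G] {N : ℕ} {P : PH G N}

/-- Cartan decomposition with a vector part of dimension at most `r`. -/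
def KAK (P : PH G N) (r : ℕ) : Prop :=
  ∃ V : Submodule ℝ (Fin N → ℝ), Module.finrank ℝ V ≤ r ∧ ∀ g, ∃ k k' : MN N, IsU k ∧ IsU k' ∧ ∃ a ∈ V,
    P.ι g = k * diagonal (fun i => (Real.exp (a i) : ℂ)) * k'

/-- Two real functions on `Fin N` with the same multiset of values differ by a permutation. -/
theorem exists_perm {f g : Fin N → ℝ} (h : Multiset.map f Finset.univ.val = Multiset.map g Finset.univ.val) :
    ∃ p : Equiv.Perm (Fin N), ∀ i, f i = g (p i) := by
  have h1 : (List.ofFn f).Perm (List.ofFn g) := by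
    rw [Fin.univ_val_map, Fin.univ_val_map] at h
    exact Multiset.coe_eq_coe.1 h
  have h2 : (List.ofFn (f ∘ Tuple.sort f)).Perm (List.ofFn (g ∘ Tuple.sort g)) :=
    ((Tuple.sort f).ofFn_comp_perm f).trans (h1.trans ((Tuple.sort g).ofFn_comp_perm g).symm)
  have h3 : List.ofFn (f ∘ Tuple.sort f) = List.ofFn (g ∘ Tuple.sort g) :=
    h2.eq_of_sortedLE (List.sortedLE_ofFn_iff.2 (Tuple.monotone_sort f))
      (List.sortedLE_ofFn_iff.2 (Tuple.monotone_sort g))
  have h4 := List.ofFn_injective h3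
  refine ⟨(Tuple.sort f).symm.trans (Tuple.sort g), fun i => ?_⟩
  have h5 := congrFun h4 ((Tuple.sort f).symm i)
  simp only [Function.comp_apply, Equiv.apply_symm_apply] at h5
  exact h5

/-- The characteristic polynomial of `Aᴴ A`. -/
theorem charpoly_svd {k k' : MN N} (hk : IsU k) (hk' : IsU k') (d : Fin N → ℝ) :
    ((k * diagonal (fun i => (d i : ℂ)) * k')ᴴ * (k * diagonal (fun i => (d i : ℂ)) * k')).charpoly =
      ∏ i, (Polynomial.X - Polynomial.C (((d i ^ 2 : ℝ)) : ℂ)) := by
  have e : (k * diagonal (fun i => (d i : ℂ)) * k')ᴴ * (k * diagonal (fun i => (d i : ℂ)) * k') =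
      k'ᴴ * (diagonal (fun i => ((d i ^ 2 : ℝ) : ℂ)) * k') := by
    rw [Matrix.conjTranspose_mul, Matrix.conjTranspose_mul, Matrix.diagonal_conjTranspose]
    have h1 : kᴴ * k = 1 := hk
    calc k'ᴴ * (diagonal (star fun i => (d i : ℂ)) * kᴴ) * (k * diagonal (fun i => (d i : ℂ)) * k')
        = k'ᴴ * ((diagonal (star fun i => (d i : ℂ)) * (kᴴ * k) * diagonal (fun i => (d i : ℂ))) * k') := by
          simp only [Matrix.mul_assoc]
      _ = k'ᴴ * (diagonal (fun i => ((d i ^ 2 : ℝ) : ℂ)) * k') := by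
          rw [h1, Matrix.mul_one, Matrix.diagonal_mul_diagonal]
          congr 3
          funext i
          simp only [Pi.star_apply, RCLike.star_def, Complex.conj_ofReal]
          push_cast
          ring
  rw [e, Matrix.charpoly_mul_comm, Matrix.mul_assoc, hk'.mul_star, Matrix.mul_one, Matrix.charpoly_diagonal]

theorem perm_of_svd {k k' l l' : MN N} (hk : IsU k) (hk' : IsU k') (hl : IsU l) (hl' : IsU l')
    {d e : Fin N → ℝ} (h : k * diagonal (fun i => (d i : ℂ)) * k' = l * diagonal (fun i => (e i : ℂ)) * l') :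
    ∃ p : Equiv.Perm (Fin N), ∀ i, d i ^ 2 = e (p i) ^ 2 := by
  have h1 := charpoly_svd hk hk' d
  rw [h, charpoly_svd hl hl' e] at h1
  have key : ∀ x : Fin N → ℝ, (∏ i, (Polynomial.X - Polynomial.C (((x i ^ 2 : ℝ)) : ℂ))).roots =
      Multiset.map (fun i => ((x i ^ 2 : ℝ) : ℂ)) Finset.univ.val := by
    intro x
    have h2 := Polynomial.roots_multiset_prod_X_sub_C
      (Multiset.map (fun i => ((x i ^ 2 : ℝ) : ℂ)) (Finset.univ : Finset (Fin N)).val)
    rw [Multiset.map_map] at h2
    exact h2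
  have h2 := congrArg Polynomial.roots h1
  rw [key, key] at h2
  have h3 : Multiset.map (fun i => d i ^ 2) Finset.univ.val = Multiset.map (fun i => e i ^ 2) Finset.univ.val := by
    have h4 := congrArg (Multiset.map Complex.re) h2
    rw [Multiset.map_map, Multiset.map_map] at h4
    have h5 : ∀ x : Fin N → ℝ, (Complex.re ∘ fun i => ((x i ^ 2 : ℝ) : ℂ)) = fun i => x i ^ 2 :=
      fun x => funext fun i => Complex.ofReal_re _
    rw [h5, h5] at h4
    exact h4.symm
  exact exists_perm h3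

theorem KAK.linRk {r : ℕ} (h : KAK P r) (S : Sv P) : LinRk S r := by
  obtain ⟨V, hV, h⟩ := h
  refine ⟨V, 0, hV, fun γ => ?_⟩
  obtain ⟨k, k', hk, hk', a, ha, he⟩ := h γ
  rw [S.spec γ] at he
  obtain ⟨p, hp⟩ := perm_of_svd (S.uL γ) (S.uR γ).star hk hk' he
  refine ⟨a, ha, p, fun i => ?_⟩
  have h1 := hp i
  have h2 : S.s γ i = Real.exp (a (p i)) := by
    have h3 := (sq_eq_sq₀ (S.pos γ i).le (Real.exp_pos _).le).1 h1
    exact h3
  rw [h2, Real.log_exp, sub_self, abs_zero]

end Pool.Agent.Helper96.RK
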