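import Pool.Agent.Helper96.RK.Ty2
import Pool.Agent.Helper84.GN.Esc

/-!
# Project RK, block Ty3: selection of the next type

`select`: if unitaries `v ∈ V` have mass at least `β` on `TC c m` minus `WC (hd c) m` for all `m`, then there are a set `J` strictly inside the head of the chain and a sequence in `V` whose
class in the limit space has a component over the stratum of the chain `J :: c`.
-/

set_option autoImplicit false

open Filter Topology

namespace Pool.Agent.Helper96.RK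

open Pool.Agent.Helper84.NI Pool.Agent.Helper84.GN Pool.Agent.Helper84.GVN Pool.Agent.Helper90.RK

variable {G : Type} [Group G] {N : ℕ} {P : PH G N}

/-- The regions of a stratum. -/
def toReg {S : Sv P} (T : Str S) : Reg G := ⟨T.W, T.F, T.monoF, T.le, T.shift⟩

section ind

variable {I : Type}

theorem ind_ind2 (A B : Set I) (f : L2 I) : ind ℂ A (ind ℂ B f) = ind ℂ (A ∩ B) f := by
  classical
  apply lv_ext
  intro i
  rw [ind_apply, ind_apply, ind_apply]
  by_cases h1 : i ∈ A <;> by_cases h2 : i ∈ B <;> simp [h1, h2]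

theorem norm_ind2 (A : Set I) (f : L2 I) : ‖ind ℂ A f‖ ≤ ‖f‖ := by
  classical
  refine (sq_le_sq₀ (norm_nonneg _) (norm_nonneg _)).1 ?_
  refine hasSum_le (fun γ => ?_) (lv_hasSum (ind ℂ A f)) (lv_hasSum f)
  rw [ind_apply]
  split_ifs
  · exact le_rfl
  · rw [norm_zero, zero_pow two_ne_zero]
    exact sq_nonneg _

theorem inner_ind2 (A : Set I) (f : L2 I) : inner ℂ (ind ℂ A f) f = ((‖ind ℂ A f‖ ^ 2 : ℝ) : ℂ) := by
  classical
  have h1 : inner ℂ (ind ℂ A f) f = inner ℂ (ind ℂ A f) (ind ℂ A f) := by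
    refine (lv_inner _ _).unique ?_
    refine (lv_inner (ind ℂ A f) (ind ℂ A f)).congr_fun ?_
    intro i
    rw [ind_apply]
    split_ifs
    · rfl
    · rw [inner_zero_left, inner_zero_left]
  rw [h1, inner_self_eq_norm_sq_to_K]
  norm_cast

theorem ind_empty2 (f : L2 I) : ind ℂ (∅ : Set I) f = 0 := by
  classical
  apply lv_ext
  intro i
  rw [ind_apply, if_neg (Set.notMem_empty i)]
  rfl

end ind

section up

variable {I : Type}

/-- Two bounded sequences which agree from some point on have the same class. -/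
theorem mk_congr {x y : BSeq (L2 I)} (m0 : ℕ) (h : ∀ m, m0 ≤ m → x.1 m = y.1 m) : UP.mk x = UP.mk y := by
  have h1 := UP.tendsto_norm (x - y)
  have h2 : Tendsto (fun n => ‖(x - y).1 n‖) (hyperfilter ℕ : Filter ℕ) (𝓝 0) := by
    refine tendsto_const_nhds.congr' ?_
    have : ∀ᶠ n in atTop, (0 : ℝ) = ‖(x - y).1 n‖ := by
      filter_upwards [eventually_ge_atTop m0] with n hn
      have : (x - y).1 n = x.1 n - y.1 n := rfl
      rw [this, h n hn, sub_self, norm_zero]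
    exact this.filter_mono Nat.hyperfilter_le_atTop
  have h3 := tendsto_nhds_unique h1 h2
  have h4 : UP.mk (x - y) = 0 := norm_eq_zero.1 h3
  have h5 : UP.mk x = UP.mk (x - y) + UP.mk y := by
    rw [← UP.mk_add, sub_add_cancel]
  rw [h5, h4, zero_add]

/-- The class of the truncated sequence. -/
noncomputable def tru (A : ℕ → Set I) (f : ℕ → L2 I) (hf : ∀ m, ‖f m‖ ≤ 1) : UP (L2 I) :=
  UP.mk ⟨fun m => ind ℂ (A m) (f m), 1, fun m => (norm_ind2 _ _).trans (hf m)⟩

theorem ind_tru (B : Set I) (A : ℕ → Set I) (f : ℕ → L2 I) (hf : ∀ m, ‖f m‖ ≤ 1) :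
    UP.map (ind ℂ B) (tru A f hf) = tru (fun m => B ∩ A m) f hf := by
  unfold tru
  rw [UP.map_mk]
  exact mk_congr 0 fun m _ => ind_ind2 B (A m) (f m)

theorem tru_congr {A B : ℕ → Set I} (f : ℕ → L2 I) (hf : ∀ m, ‖f m‖ ≤ 1) (m0 : ℕ)
    (h : ∀ m, m0 ≤ m → A m = B m) : tru A f hf = tru B f hf :=
  mk_congr m0 fun m hm => by
    change ind ℂ (A m) (f m) = ind ℂ (B m) (f m)
    rw [h m hm]

theorem tru_empty (f : ℕ → L2 I) (hf : ∀ m, ‖f m‖ ≤ 1) : tru (fun _ => (∅ : Set I)) f hf = 0 := by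
  have h : tru (fun _ => (∅ : Set I)) f hf = UP.mk (0 : BSeq (L2 I)) :=
    mk_congr 0 fun m _ => ind_empty2 (f m)
  rw [h]
  have := UP.mk_smul (0 : ℂ) (0 : BSeq (L2 I))
  rwa [zero_smul, zero_smul] at this

theorem le_norm_tru {A : ℕ → Set I} {f : ℕ → L2 I} {hf : ∀ m, ‖f m‖ ≤ 1} {β : ℝ}
    (h : ∀ m, β ≤ ‖ind ℂ (A m) (f m)‖) : β ≤ ‖tru A f hf‖ :=
  ge_of_tendsto' (UP.tendsto_norm _) h

/-- The inner product of a truncated sequence with the sequence. -/
theorem inner_tru (A : ℕ → Set I) (f : ℕ → L2 I) (hf : ∀ m, ‖f m‖ ≤ 1) :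
    inner ℂ (tru A f hf) (UP.mk ⟨f, 1, hf⟩) = ((‖tru A f hf‖ ^ 2 : ℝ) : ℂ) := by
  have h1 := UP.tendsto_inner (⟨fun m => ind ℂ (A m) (f m), 1, fun m => (norm_ind2 _ _).trans (hf m)⟩ : BSeq (L2 I))
    (⟨f, 1, hf⟩ : BSeq (L2 I))
  have h2 := (UP.tendsto_norm (⟨fun m => ind ℂ (A m) (f m), 1, fun m => (norm_ind2 _ _).trans (hf m)⟩ :
    BSeq (L2 I))).pow 2
  have h3 := (Complex.continuous_ofReal.tendsto _).comp h2
  refine tendsto_nhds_unique h1 (h3.congr fun m => ?_)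
  exact (inner_ind2 (A m) (f m)).symm

/-- Null sets of a vector. -/
theorem null_mono {ξ : UP (L2 I)} {B B' : Set I} (h : B' ⊆ B) (hB : UP.map (ind ℂ B) ξ = 0) :
    UP.map (ind ℂ B') ξ = 0 := by
  have h1 : ind ℂ B' = (ind ℂ B').comp (ind ℂ B) := by
    ext1 f
    rw [ContinuousLinearMap.comp_apply, ind_ind2, Set.inter_eq_left.2 h]
  rw [h1, UP.map_comp, hB, map_zero]

theorem null_union {ξ : UP (L2 I)} {B B' : Set I} (hB : UP.map (ind ℂ B) ξ = 0)
    (hB' : UP.map (ind ℂ B') ξ = 0) : UP.map (ind ℂ (B ∪ B')) ξ = 0 := by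
  classical
  have h1 : ind ℂ (B ∪ B') = ind ℂ B + ind ℂ (B' \ B) := by
    ext1 f
    apply lv_ext
    intro i
    rw [_root_.add_apply, lp.coeFn_add, Pi.add_apply, ind_apply, ind_apply, ind_apply]
    by_cases h4 : i ∈ B <;> by_cases h5 : i ∈ B' <;> simp [h4, h5]
  rw [h1, UP.map_add, hB, null_mono Set.sdiff_subset hB', add_zero]

theorem null_iUnion {ξ : UP (L2 I)} {κ : Type} (t : Finset κ) (B : κ → Set I)
    (hB : ∀ k ∈ t, UP.map (ind ℂ (B k)) ξ = 0) : UP.map (ind ℂ (⋃ k ∈ t, B k)) ξ = 0 := by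
  classical
  induction t using Finset.induction_on with
  | empty =>
    have h1 : (⋃ k ∈ (∅ : Finset κ), B k) = ∅ := by simp
    rw [h1]
    have h2 : ind ℂ (∅ : Set I) = 0 := by
      ext1 f
      exact ind_empty2 f
    rw [h2, UP.map_zero]
  | insert a t ha ih =>
    rw [Finset.set_biUnion_insert]
    exact null_union (hB a (Finset.mem_insert_self _ _))
      (ih fun k hk => hB k (Finset.mem_insert_of_mem hk))

/-- A vector without mass on `Bᶜ ∩ W` whose support is in `W` is carried by `B`. -/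
theorem carried {ξ ξ' : UP (L2 I)} {W B : Set I} (hξ' : ξ' = UP.map (ind ℂ W) ξ)
    (h : UP.map (ind ℂ (W \ B)) ξ = 0) : UP.map (ind ℂ B) ξ' = ξ' := by
  classical
  have h1 : ind ℂ W = (ind ℂ B).comp (ind ℂ W) + ind ℂ (W \ B) := by
    ext1 f
    apply lv_ext
    intro i
    rw [_root_.add_apply, lp.coeFn_add, Pi.add_apply, ContinuousLinearMap.comp_apply, ind_ind2,
      ind_apply, ind_apply, ind_apply]
    by_cases h4 : i ∈ B <;> by_cases h5 : i ∈ W <;> simp [h4, h5]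
  have h2 : UP.map (ind ℂ W) ξ = UP.map (ind ℂ B) (UP.map (ind ℂ W) ξ) := by
    conv_lhs => rw [h1]
    rw [UP.map_add, h, add_zero, UP.map_comp]
  rw [hξ']
  exact h2.symm

end up

theorem norm_cf_le (v : L2 G ≃ₗᵢ[ℂ] L2 G) : ‖cf v‖ ≤ 1 := (norm_cf v).le

theorem hd_mem {c : List (Finset (Fin N))} {j : Fin N} (h : j ∉ hd c) : hd c ∈ c := by
  cases c with
  | nil => exact absurd (Finset.mem_univ j) h
  | cons I c => exact List.mem_cons_self

theorem select (S : Sv P) (c : List (Finset (Fin N))) {V : Set (L2 G ≃ₗᵢ[ℂ] L2 G)} {β : ℝ} (hβ : 0 < β)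
    (h : ∀ m : ℕ, ∃ v ∈ V, β ≤ ‖ind ℂ (TC S c m \ WC S (hd c) m) (cf v)‖) :
    ∃ (J : Finset (Fin N)) (w : ℕ → (L2 G ≃ₗᵢ[ℂ] L2 G)), J ⊂ hd c ∧ (∀ n, w n ∈ V) ∧
      Ppr (toReg (chStr S J c)) (zet w) ≠ 0 := by
  classical
  choose v hv hvβ using h
  let A : ℕ → Set G := fun m => TC S c m \ WC S (hd c) m
  have hA : ∀ m, A m = TC S c m \ WC S (hd c) m := fun m => rfl
  let f : ℕ → L2 G := fun m => cf (v m)
  have hf : ∀ m, ‖f m‖ ≤ 1 := fun m => norm_cf_le _
  set ξ : UP (L2 G) := tru A f hf with hξ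
  have hξ0 : 0 < ‖ξ‖ := lt_of_lt_of_le hβ (le_norm_tru fun m => hvβ m)
  -- the maximal set
  let 𝒮 : Finset (Finset (Fin N)) :=
    Finset.univ.filter fun J => J ⊆ hd c ∧ ∃ n, UP.map (ind ℂ (WC S J n)) ξ ≠ 0
  have h𝒮 : ∀ J, J ∈ 𝒮 ↔ J ⊆ hd c ∧ ∃ n, UP.map (ind ℂ (WC S J n)) ξ ≠ 0 := by
    intro J
    simp [𝒮]
  have hne : 𝒮.Nonempty := by
    refine ⟨∅, (h𝒮 _).2 ⟨Finset.empty_subset _, 0, ?_⟩⟩
    have h1 : WC S (∅ : Finset (Fin N)) 0 = Set.univ := by
      ext γ
      simp [WC]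
    rw [h1, hξ, ind_tru]
    simp only [Set.univ_inter]
    rw [← hξ]
    exact norm_pos_iff.1 hξ0
  obtain ⟨J, hJ, hmax⟩ := Finset.exists_max_image 𝒮 Finset.card hne
  obtain ⟨hJc, n, hn⟩ := (h𝒮 J).1 hJ
  have hnull : ∀ j, j ∈ hd c → j ∉ J → ∀ n', UP.map (ind ℂ (WC S (insert j J) n')) ξ = 0 := by
    intro j hj hjJ n'
    by_contra hcon
    have h1 : insert j J ∈ 𝒮 := (h𝒮 _).2 ⟨Finset.insert_subset hj hJc, n', hcon⟩
    have h2 := hmax _ h1
    rw [Finset.card_insert_of_notMem hjJ] at h2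
    omega
  have hhd : ∀ n', UP.map (ind ℂ (WC S (hd c) n')) ξ = 0 := by
    intro n'
    rw [hξ, ind_tru, tru_congr f hf n' (B := fun _ => ∅), tru_empty]
    intro m hm
    rw [hA]
    ext γ
    simp only [Set.mem_inter_iff, Set.mem_sdiff, Set.mem_empty_iff_false, iff_false, not_and, not_not]
    intro h1 _
    exact WC_mono S _ hm h1
  have hTC : ∀ m0, UP.map (ind ℂ (TC S c m0)ᶜ) ξ = 0 := by
    intro m0
    rw [hξ, ind_tru, tru_congr f hf m0 (B := fun _ => ∅), tru_empty]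
    intro m hm
    rw [hA]
    ext γ
    simp only [Set.mem_inter_iff, Set.mem_sdiff, Set.mem_empty_iff_false, iff_false, Set.mem_compl_iff]
    rintro ⟨h1, h2, _⟩
    exact h1 (TC_anti S c hm h2)
  have hJne : J ≠ hd c := by
    rintro rfl
    exact hn (hhd n)
  refine ⟨J, v, ⟨hJc, fun hcon => hJne (Finset.Subset.antisymm hJc hcon)⟩, hv, ?_⟩
  set ξ' : UP (L2 G) := UP.map (ind ℂ (WC S J n)) ξ with hξ'
  have hmem : ξ' ∈ (toReg (chStr S J c)).Ua := by
    refine Submodule.le_topologicalClosure _ (Submodule.subset_span ⟨n, fun s hs => ?_⟩)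
    obtain ⟨m0, hm0⟩ := (mem_FC S).1 (show s ∈ FC S J c n from hs)
    refine carried hξ' ?_
    have hsub : WC S J n \ s ⊆ (TC S c m0)ᶜ ∪
        ⋃ j ∈ hd c \ J, WC S (insert j J) (max n (m0 * (1 + N * n))) := by
      rintro γ ⟨h1, h2⟩
      by_cases h3 : γ ∈ TC S c m0
      · right
        have h4 : γ ∉ TC S (J :: c) m0 := fun h4 => h2 (hm0 ⟨h1, h4⟩)
        rw [TC_cons] at h4
        have h5 : ∃ j, j ∉ J ∧ lg S γ j < (m0 : ℝ) * (1 + ∑ i ∈ J, lg S γ i) := by
          by_contra hcon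
          push Not at hcon
          exact h4 ⟨hcon, h3⟩
        obtain ⟨j, hj, hlt⟩ := h5
        have hjc : j ∈ hd c := by
          by_contra hjc
          have h6 := h3 _ (hd_mem hjc) j hjc
          have h7 : ∑ i ∈ J, lg S γ i ≤ ∑ i ∈ hd c, lg S γ i :=
            Finset.sum_le_sum_of_subset_of_nonneg hJc fun i _ _ => lg_nonneg S γ i
          have h8 : (m0 : ℝ) * (1 + ∑ i ∈ J, lg S γ i) ≤ m0 * (1 + ∑ i ∈ hd c, lg S γ i) :=
            mul_le_mul_of_nonneg_left (by linarith) (Nat.cast_nonneg _)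
          linarith
        refine Set.mem_iUnion₂.2 ⟨j, Finset.mem_sdiff.2 ⟨hjc, hj⟩, ?_⟩
        intro i hi
        rcases Finset.mem_insert.1 hi with rfl | hi
        · have h9 : ∑ k ∈ J, lg S γ k ≤ N * n := by
            calc ∑ k ∈ J, lg S γ k ≤ ∑ _k ∈ J, (n : ℝ) := Finset.sum_le_sum fun k hk => h1 k hk
              _ = J.card * n := by rw [Finset.sum_const, nsmul_eq_mul]
              _ ≤ N * n := by
                have h4 : (J.card : ℝ) ≤ N := by
                  have := Finset.card_le_univ J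
                  rw [Fintype.card_fin] at this
                  exact_mod_cast this
                exact mul_le_mul_of_nonneg_right h4 (Nat.cast_nonneg n)
          have h10 : (m0 : ℝ) * (1 + ∑ k ∈ J, lg S γ k) ≤ m0 * (1 + N * n) :=
            mul_le_mul_of_nonneg_left (by linarith) (Nat.cast_nonneg _)
          refine (hlt.le.trans h10).trans ?_
          have : ((m0 * (1 + N * n) : ℕ) : ℝ) ≤ ((max n (m0 * (1 + N * n)) : ℕ) : ℝ) := by
            exact_mod_cast le_max_right _ _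
          push_cast at this ⊢
          exact this
        · refine (h1 i hi).trans ?_
          exact_mod_cast le_max_left _ _
      · exact Or.inl h3
    refine null_mono hsub (null_union (hTC m0) (null_iUnion _ _ fun j hj => ?_))
    rw [Finset.mem_sdiff] at hj
    exact hnull j hj.1 hj.2 _
  refine Ppr_ne_zero _ hmem ?_
  have h1 : ξ' = tru (fun m => WC S J n ∩ A m) f hf := by
    rw [hξ', hξ, ind_tru]
  have h2 : zet v = UP.mk ⟨f, 1, hf⟩ := rfl
  rw [h2]
  have h3 := inner_tru (fun m => WC S J n ∩ A m) f hf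
  rw [← h1] at h3
  rw [h3]
  have h4 : ‖ξ'‖ ≠ 0 := norm_ne_zero_iff.2 hn
  exact_mod_cast pow_ne_zero 2 h4

end Pool.Agent.Helper96.RK
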