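import Pool.Agent.Helper90.RK.GC

/-!
# Project RK, block Ty1: gaps and block functions

`gp S γ i` is the gap `s_i/s_{i+1}` (and `1` for the last index), `lg S γ i` its logarithm. `bJ J` is the block function of a
set `J` of indices (gaps): `i`, `j` are in the same block if and only if all the gaps between them are in `J`.
-/

set_option autoImplicit false

open Filter Topology

namespace Pool.Agent.Helper96.RK

open Pool.Agent.Helper84.NI Pool.Agent.Helper90.RK

variable {G : Type} [Group G] {N : ℕ} {P : PH G N} (S : Sv P)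

/-- The gap after `i`: `s_i / s_{i+1}`, and `1` for the last index. -/
noncomputable def gp (γ : G) (i : Fin N) : ℝ :=
  if h : (i : ℕ) + 1 < N then S.s γ i / S.s γ ⟨i + 1, h⟩ else 1

theorem one_le_gp (γ : G) (i : Fin N) : 1 ≤ gp S γ i := by
  unfold gp
  split_ifs with h
  · rw [le_div_iff₀ (S.pos _ _), one_mul]
    exact S.anti γ (Fin.le_def.2 (Nat.le_succ _))
  · exact le_rfl

theorem gp_shift (g h : G) : ∃ C : ℝ, 1 ≤ C ∧ ∀ γ i, gp S (g⁻¹ * γ * h) i ≤ C * gp S γ i ∧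
    gp S γ i ≤ C * gp S (g⁻¹ * γ * h) i := by
  obtain ⟨C, hC, hc⟩ := S.s_compare g h
  have hC0 : 0 < C := lt_of_lt_of_le one_pos hC
  refine ⟨C * C, by nlinarith, fun γ i => ?_⟩
  unfold gp
  split_ifs with hi
  · set j : Fin N := ⟨i + 1, hi⟩
    have a := S.pos γ i
    have b := S.pos γ j
    have a' := S.pos (g⁻¹ * γ * h) i
    have b' := S.pos (g⁻¹ * γ * h) j
    constructor
    · rw [div_le_iff₀ b']
      have h1 := (hc γ i).1
      have h2 := (hc γ j).2
      calc S.s (g⁻¹ * γ * h) i ≤ C * S.s γ i := h1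
        _ = C * (S.s γ i / S.s γ j) * S.s γ j := by field_simp
        _ ≤ C * (S.s γ i / S.s γ j) * (C * S.s (g⁻¹ * γ * h) j) :=
            mul_le_mul_of_nonneg_left h2 (by positivity)
        _ = C * C * (S.s γ i / S.s γ j) * S.s (g⁻¹ * γ * h) j := by ring
    · rw [div_le_iff₀ b]
      have h1 := (hc γ i).2
      have h2 := (hc γ j).1
      calc S.s γ i ≤ C * S.s (g⁻¹ * γ * h) i := h1
        _ = C * (S.s (g⁻¹ * γ * h) i / S.s (g⁻¹ * γ * h) j) * S.s (g⁻¹ * γ * h) j := by field_simp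
        _ ≤ C * (S.s (g⁻¹ * γ * h) i / S.s (g⁻¹ * γ * h) j) * (C * S.s γ j) :=
            mul_le_mul_of_nonneg_left h2 (by positivity)
        _ = C * C * (S.s (g⁻¹ * γ * h) i / S.s (g⁻¹ * γ * h) j) * S.s γ j := by ring
  · constructor <;> nlinarith

theorem gap_le_ratio (γ : G) {i k j : Fin N} (hik : i ≤ k) (hkj : k < j) :
    gp S γ k * S.s γ j ≤ S.s γ i := by
  have hk : (k : ℕ) + 1 < N := lt_of_le_of_lt (Nat.succ_le_of_lt (Fin.lt_def.1 hkj)) j.2
  unfold gp
  rw [dif_pos hk]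
  have a := S.pos γ k
  have b := S.pos γ ⟨k + 1, hk⟩
  have h1 : S.s γ j ≤ S.s γ ⟨k + 1, hk⟩ := S.anti γ (Fin.le_def.2 (Nat.succ_le_of_lt (Fin.lt_def.1 hkj)))
  have h2 : S.s γ k ≤ S.s γ i := S.anti γ hik
  calc S.s γ k / S.s γ ⟨k + 1, hk⟩ * S.s γ j ≤ S.s γ k / S.s γ ⟨k + 1, hk⟩ * S.s γ ⟨k + 1, hk⟩ :=
        mul_le_mul_of_nonneg_left h1 (by positivity)
    _ = S.s γ k := by field_simp
    _ ≤ S.s γ i := h2

theorem ratio_le (γ : G) {M : ℝ} (hM : 1 ≤ M) (i j : Fin N)
    (h : ∀ k, i ≤ k → k < j → gp S γ k ≤ M) : S.s γ i ≤ M ^ N * S.s γ j := by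
  have hM0 : 0 < M := lt_of_lt_of_le one_pos hM
  have key : ∀ (d : ℕ) (j : Fin N), (i : ℕ) + d = j → (∀ k, i ≤ k → k < j → gp S γ k ≤ M) →
      S.s γ i ≤ M ^ d * S.s γ j := by
    intro d
    induction d with
    | zero =>
      intro j hj _
      have : i = j := Fin.ext (by simpa using hj)
      rw [this, pow_zero, one_mul]
    | succ d ih =>
      intro j hj hk
      have hlt : (i : ℕ) + d < N := by have := j.2; omega
      have h1 := ih ⟨i + d, hlt⟩ rfl (fun k h1 h2 => hk k h1 (lt_trans h2 (Fin.lt_def.2 (by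
        change (i : ℕ) + d < j
        omega))))
      have h2 := hk ⟨i + d, hlt⟩ (Fin.le_def.2 (Nat.le_add_right _ _)) (Fin.lt_def.2 (by
        change (i : ℕ) + d < j
        omega))
      unfold gp at h2
      have hj1 : ((⟨i + d, hlt⟩ : Fin N) : ℕ) + 1 < N := by
        change (i : ℕ) + d + 1 < N
        have := j.2; omega
      rw [dif_pos hj1] at h2
      have e : (⟨((⟨i + d, hlt⟩ : Fin N) : ℕ) + 1, hj1⟩ : Fin N) = j := Fin.ext (by
        change (i : ℕ) + d + 1 = j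
        omega)
      rw [e, div_le_iff₀ (S.pos _ _)] at h2
      calc S.s γ i ≤ M ^ d * S.s γ ⟨i + d, hlt⟩ := h1
        _ ≤ M ^ d * (M * S.s γ j) := mul_le_mul_of_nonneg_left h2 (by positivity)
        _ = M ^ (d + 1) * S.s γ j := by ring
  rcases le_total i j with hij | hij
  · have h1 := key (j - i) j (by have := Fin.le_def.1 hij; omega) h
    refine h1.trans (mul_le_mul_of_nonneg_right (pow_le_pow_right₀ hM ?_) (S.pos _ _).le)
    have := j.2; omega
  · calc S.s γ i ≤ S.s γ j := S.anti γ hij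
      _ = 1 * S.s γ j := (one_mul _).symm
      _ ≤ M ^ N * S.s γ j := mul_le_mul_of_nonneg_right (one_le_pow₀ hM) (S.pos _ _).le

open Classical in
/-- The block function of a type. -/
noncomputable def bJ (J : Finset (Fin N)) (i : Fin N) : ℕ :=
  (Finset.univ.filter fun k => k < i ∧ k ∉ J).card

theorem bJ_mono (J : Finset (Fin N)) : Monotone (bJ J) := by
  intro i j hij
  refine Finset.card_le_card fun k hk => ?_
  rw [Finset.mem_filter] at hk ⊢
  exact ⟨hk.1, lt_of_lt_of_le hk.2.1 hij, hk.2.2⟩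

theorem exists_of_bJ_lt {J : Finset (Fin N)} {i j : Fin N} (h : bJ J i < bJ J j) :
    ∃ k, i ≤ k ∧ k < j ∧ k ∉ J := by
  by_contra hcon
  push Not at hcon
  refine absurd h (not_lt.2 (Finset.card_le_card fun k hk => ?_))
  rw [Finset.mem_filter] at hk ⊢
  refine ⟨hk.1, ?_, hk.2.2⟩
  by_contra hki
  exact hk.2.2 (hcon k (not_lt.1 hki) hk.2.1)

theorem mem_of_bJ_eq {J : Finset (Fin N)} {i j k : Fin N} (h : bJ J i = bJ J j) (hik : i ≤ k)
    (hkj : k < j) : k ∈ J := by
  by_contra hk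
  have hlt : bJ J i < bJ J j := by
    refine Finset.card_lt_card ?_
    rw [Finset.ssubset_iff_of_subset (fun x hx => by
      rw [Finset.mem_filter] at hx ⊢
      exact ⟨hx.1, lt_trans (lt_of_lt_of_le hx.2.1 hik) hkj, hx.2.2⟩)]
    refine ⟨k, ?_, ?_⟩
    · rw [Finset.mem_filter]
      exact ⟨Finset.mem_univ _, hkj, hk⟩
    · rw [Finset.mem_filter]
      intro h1
      exact absurd h1.2.1 (not_lt.2 hik)
  exact absurd h (ne_of_lt hlt)

/-- The logarithm of the gap. -/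
noncomputable def lg (γ : G) (i : Fin N) : ℝ := Real.log (gp S γ i)

theorem lg_nonneg (γ : G) (i : Fin N) : 0 ≤ lg S γ i := Real.log_nonneg (one_le_gp S γ i)

theorem gp_eq_exp (γ : G) (i : Fin N) : gp S γ i = Real.exp (lg S γ i) :=
  (Real.exp_log (lt_of_lt_of_le one_pos (one_le_gp S γ i))).symm

theorem lg_shift (g h : G) : ∃ C : ℕ, ∀ γ i, lg S (g⁻¹ * γ * h) i ≤ lg S γ i + C ∧
    lg S γ i ≤ lg S (g⁻¹ * γ * h) i + C := by
  obtain ⟨C, hC, hc⟩ := gp_shift S g h
  have hC0 : 0 < C := lt_of_lt_of_le one_pos hC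
  refine ⟨⌈Real.log C⌉₊, fun γ i => ?_⟩
  have a := lt_of_lt_of_le one_pos (one_le_gp S γ i)
  have a' := lt_of_lt_of_le one_pos (one_le_gp S (g⁻¹ * γ * h) i)
  have key : ∀ x y : ℝ, 0 < x → 0 < y → x ≤ C * y → Real.log x ≤ Real.log y + ⌈Real.log C⌉₊ := by
    intro x y hx hy hxy
    have h1 := Real.log_le_log hx hxy
    rw [Real.log_mul hC0.ne' hy.ne'] at h1
    linarith [Nat.le_ceil (Real.log C)]
  exact ⟨key _ _ a' a (hc γ i).1, key _ _ a a' (hc γ i).2⟩

/-- The set where all the gaps are bounded is finite. -/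
theorem finite_lg_le (n : ℕ) : {γ | ∀ i, lg S γ i ≤ n}.Finite := by
  have h1 : (1 : ℝ) ≤ Real.exp n := Real.one_le_exp (Nat.cast_nonneg n)
  refine (S.finite_ratio ((Real.exp n) ^ N)).subset fun γ hγ => ?_
  intro i j
  exact ratio_le S γ h1 i j fun k _ _ => by
    rw [gp_eq_exp]
    exact Real.exp_le_exp.2 (hγ k)

end Pool.Agent.Helper96.RK
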