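import Pool.Agent.Helper96.RK.Ty1

/-!
# Project RK, block Ty2: chains of types and their strata

A chain `c = [J, ..., I_1]` of sets of gaps, smallest first. `TC S c m`: for every `I` in the chain the gaps outside `I` are at least `m` times as large as
the gaps in `I` (logarithmic scale, and at least `m`). `WC S J n`: the gaps in `J` are at most `n`. `chStr S J c`: the stratum of the chain `J :: c`: gaps in `J` bounded, `TC` for all `m`.
-/

set_option autoImplicit false

open Filter Topology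

namespace Pool.Agent.Helper96.RK

open Pool.Agent.Helper84.NI Pool.Agent.Helper90.RK

variable {G : Type} [Group G] {N : ℕ} {P : PH G N} (S : Sv P)

/-- Scale separation at all levels of a chain. -/
def TC (c : List (Finset (Fin N))) (m : ℕ) : Set G :=
  {γ | ∀ I ∈ c, ∀ j, j ∉ I → (m : ℝ) * (1 + ∑ i ∈ I, lg S γ i) ≤ lg S γ j}

/-- The gaps in `J` are at most `n`. -/
def WC (J : Finset (Fin N)) (n : ℕ) : Set G := {γ | ∀ i ∈ J, lg S γ i ≤ n}

/-- The head of a chain (all gaps for the empty chain). -/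
def hd (c : List (Finset (Fin N))) : Finset (Fin N) := c.headD Finset.univ

/-- Strictly decreasing chains of proper sets. -/
def IsCh : List (Finset (Fin N)) → Prop
  | [] => True
  | J :: c => J ⊂ hd c ∧ IsCh c

theorem sum_lg_nonneg (γ : G) (I : Finset (Fin N)) : 0 ≤ ∑ i ∈ I, lg S γ i :=
  Finset.sum_nonneg fun i _ => lg_nonneg S γ i

theorem TC_anti (c : List (Finset (Fin N))) {m m' : ℕ} (h : m ≤ m') : TC S c m' ⊆ TC S c m := by
  intro γ hγ I hI j hj
  refine le_trans (mul_le_mul_of_nonneg_right (by exact_mod_cast h) ?_) (hγ I hI j hj)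
  linarith [sum_lg_nonneg S γ I]

theorem TC_cons {J : Finset (Fin N)} {c : List (Finset (Fin N))} {m : ℕ} {γ : G} :
    γ ∈ TC S (J :: c) m ↔
      (∀ j, j ∉ J → (m : ℝ) * (1 + ∑ i ∈ J, lg S γ i) ≤ lg S γ j) ∧ γ ∈ TC S c m := by
  unfold TC
  simp only [Set.mem_ofPred_eq, List.mem_cons, forall_eq_or_imp]

theorem WC_mono (J : Finset (Fin N)) {n n' : ℕ} (h : n ≤ n') : WC S J n ⊆ WC S J n' :=
  fun _ hγ i hi => (hγ i hi).trans (by exact_mod_cast h)

/-- The filters of a chain. -/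
def FC (J : Finset (Fin N)) (c : List (Finset (Fin N))) (n : ℕ) : Filter G :=
  𝓟 (WC S J n) ⊓ ⨅ m : ℕ, 𝓟 (TC S (J :: c) m)

theorem mem_FC {J : Finset (Fin N)} {c : List (Finset (Fin N))} {n : ℕ} {A : Set G} :
    A ∈ FC S J c n ↔ ∃ m : ℕ, WC S J n ∩ TC S (J :: c) m ⊆ A := by
  have hd : Directed (· ≥ ·) fun m : ℕ => 𝓟 (TC S (J :: c) m) := by
    intro m m'
    exact ⟨max m m', principal_mono.2 (TC_anti S _ (le_max_left _ _)),
      principal_mono.2 (TC_anti S _ (le_max_right _ _))⟩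
  unfold FC
  rw [inf_comm, mem_inf_principal, mem_iInf_of_directed hd]
  constructor
  · rintro ⟨m, hm⟩
    exact ⟨m, fun γ hγ => (mem_principal.1 hm) hγ.2 hγ.1⟩
  · rintro ⟨m, hm⟩
    exact ⟨m, mem_principal.2 fun γ hγ h => hm ⟨h, hγ⟩⟩

theorem TC_mem_FC (J : Finset (Fin N)) (c : List (Finset (Fin N))) (m n : ℕ) :
    TC S (J :: c) m ∈ FC S J c n := (mem_FC S).2 ⟨m, Set.inter_subset_right⟩

theorem TC_shift (c : List (Finset (Fin N))) {γ γ' : G} {C : ℕ}
    (hC : ∀ i, lg S γ' i ≤ lg S γ i + C ∧ lg S γ i ≤ lg S γ' i + C) (m' : ℕ)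
    (h : γ ∈ TC S c (m' * (1 + N * C) + C)) : γ' ∈ TC S c m' := by
  intro I hI j hj
  have h1 := h I hI j hj
  have h2 := (hC j).2
  have h3 : ∑ i ∈ I, lg S γ' i ≤ ∑ i ∈ I, lg S γ i + N * C := by
    calc ∑ i ∈ I, lg S γ' i ≤ ∑ i ∈ I, (lg S γ i + C) := Finset.sum_le_sum fun i _ => (hC i).1
      _ = ∑ i ∈ I, lg S γ i + I.card * C := by
          rw [Finset.sum_add_distrib, Finset.sum_const, nsmul_eq_mul]
      _ ≤ ∑ i ∈ I, lg S γ i + N * C := by
          have h4 : (I.card : ℝ) ≤ N := by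
            have := Finset.card_le_univ I
            rw [Fintype.card_fin] at this
            exact_mod_cast this
          have h5 : (0 : ℝ) ≤ C := Nat.cast_nonneg C
          nlinarith
  have h0 := sum_lg_nonneg S γ I
  push_cast at h1
  set X := ∑ i ∈ I, lg S γ i with hX
  set X' := ∑ i ∈ I, lg S γ' i with hX'
  have hm : (0 : ℝ) ≤ m' := Nat.cast_nonneg m'
  have hCN : (0 : ℝ) ≤ N * C := by positivity
  have hC0 : (0 : ℝ) ≤ C := Nat.cast_nonneg C
  have e1 : (m' : ℝ) * (1 + X') ≤ m' * (1 + X + N * C) :=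
    mul_le_mul_of_nonneg_left (by linarith) hm
  have e2 : (m' : ℝ) * (1 + X + N * C) + C ≤ (m' * (1 + N * C) + C) * (1 + X) := by
    have : (m' * (1 + N * C) + C) * (1 + X) - ((m' : ℝ) * (1 + X + N * C) + C) =
        m' * (N * C * X) + C * X := by ring
    have h6 : 0 ≤ (m' : ℝ) * (N * C * X) + C * X := by positivity
    linarith
  linarith

/-- The stratum of the chain `J :: c`. -/
noncomputable def chStr (J : Finset (Fin N)) (c : List (Finset (Fin N))) : Str S where
  b := bJ J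
  mono := bJ_mono J
  W := WC S J
  F := FC S J c
  monoF n := by
    intro A hA
    obtain ⟨R, hR⟩ := (mem_FC S).1 hA
    exact (mem_FC S).2 ⟨R, (Set.inter_subset_inter_left _ (WC_mono S J (Nat.le_succ n))).trans hR⟩
  le n := inf_le_left
  shift g h n := by
    obtain ⟨C, hC⟩ := lg_shift S g h
    refine ⟨n + C, fun A hA => ?_⟩
    obtain ⟨m, hm⟩ := (mem_FC S).1 hA
    refine (mem_FC S).2 ⟨m * (1 + N * C) + C, fun γ hγ => hm ⟨fun k hk => ?_, ?_⟩⟩
    · have h1 := (hC γ k).1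
      have h2 := hγ.1 k hk
      push_cast
      linarith
    · exact TC_shift S _ (hC γ) m hγ.2
  gap n i j hij := by
    rw [NormedAddGroup.tendsto_nhds_zero]
    intro e he
    obtain ⟨k, hik, hkj, hk⟩ := exists_of_bJ_lt hij
    have hm : TC S (J :: c) (⌈1 / e⌉₊ + 1) ∈ FC S J c n := TC_mem_FC S J c _ n
    filter_upwards [hm] with γ hγ
    have h0 := ((TC_cons S).1 hγ).1 k hk
    have h00 := sum_lg_nonneg S γ J
    push_cast at h0
    have hce : (0 : ℝ) ≤ ⌈1 / e⌉₊ := Nat.cast_nonneg _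
    have h1 : 1 / e < gp S γ k := by
      rw [gp_eq_exp]
      have h3 : ((⌈1 / e⌉₊ : ℝ) + 1) ≤ lg S γ k := by nlinarith
      have h4 := Real.add_one_le_exp (lg S γ k)
      have h5 := Nat.le_ceil (1 / e)
      linarith
    have h2 := gap_le_ratio S γ hik hkj
    have a := S.pos γ i
    have b := S.pos γ j
    rw [Real.norm_of_nonneg (div_pos b a).le, div_lt_iff₀ a]
    have h3 : 1 / e * S.s γ j < S.s γ i := lt_of_lt_of_le (mul_lt_mul_of_pos_right h1 b) h2
    calc S.s γ j = e * (1 / e * S.s γ j) := by field_simp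
      _ < e * S.s γ i := mul_lt_mul_of_pos_left h3 he
  cpt n := by
    have h1 : (1 : ℝ) ≤ Real.exp n := Real.one_le_exp (Nat.cast_nonneg n)
    refine ⟨(Real.exp n) ^ N, fun γ hγ i j hij => ?_⟩
    refine ratio_le S γ h1 i j fun k hik hkj => ?_
    rw [gp_eq_exp]
    exact Real.exp_le_exp.2 (hγ k (mem_of_bJ_eq hij hik hkj))

end Pool.Agent.Helper96.RK
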